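import Mathlib

/-!
# MP_6194d2_nt: `μ_69 = 34 > 32 = μ_71`

For odd `k` and the odd part `G(n) = ∑_{j odd} C(k,j) j^n` of `k! S(n,k)` we use the forward differences
`D_i(n)` of `G` with step `2^M`.  At level `M = 7` (`k = 69`) and `M = 8` (`k = 71`) every residue class
modulo `2^M` is either constant or a scaled 2-adic isometry having a zero.
-/

namespace Pool.Agent.Results.MP_6194d2_nt.NotMonotone

open Finset

/-- The class `[n]_t = { j : j ≥ max(n,t), j ≡ n (mod t) }`. -/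
def cls (n t : ℕ) : Set ℕ := {j | max n t ≤ j ∧ j ≡ n [MOD t]}

/-- `ν₂(S(j,k))`, with `S` the Stirling numbers of the second kind. -/
def val (k j : ℕ) : ℕ := padicValNat 2 (Nat.stirlingSecond j k)

/-- A function is constant on a set if its image of that set is a single point. -/
def ConstOn (f : ℕ → ℕ) (s : Set ℕ) : Prop := ∃ v, f '' s = {v}

/-- The set `𝒩_{k,m}`. -/
def N (k m : ℕ) : Set ℕ :=
  {n | k ≤ n ∧ n < k + 2 ^ m ∧ ¬ ConstOn (val k) (cls n (2 ^ m))}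

/-- `μ_k` exists and equals `μ`: the integer sequence `#𝒩_{k,m}` is eventually equal to `μ`. -/
def HasMu (k μ : ℕ) : Prop := ∃ M, ∀ m ≥ M, (N k m).ncard = μ

/-! ## The explicit formula -/

theorem stir (n : ℕ) : ∀ k : ℕ, ((k.factorial * Nat.stirlingSecond n k : ℕ) : ℤ) =
    ∑ i ∈ range (k + 1), (-1) ^ (k + i) * (k.choose i : ℤ) * (i : ℤ) ^ n := by
  induction n with
  | zero =>
    intro k
    have h := Int.alternating_sum_range_choose (n := k)
    have h2 : ∑ i ∈ range (k + 1), (-1) ^ (k + i) * (k.choose i : ℤ) * (i : ℤ) ^ 0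
        = (-1) ^ k * ∑ i ∈ range (k + 1), (-1) ^ i * (k.choose i : ℤ) := by
      rw [Finset.mul_sum]
      refine Finset.sum_congr rfl fun i _ => ?_
      rw [pow_add]; ring
    rw [h2, h]
    cases k with
    | zero => simp
    | succ k => simp
  | succ n ih =>
    intro k
    cases k with
    | zero => simp
    | succ k =>
      have e1 : ∑ i ∈ range (k + 1 + 1), (-1) ^ (k + 1 + i) * ((k + 1).choose i : ℤ) * (i : ℤ) ^ (n + 1)
          = ((k : ℤ) + 1) * ∑ i ∈ range (k + 1), (-1) ^ (k + i) * (k.choose i : ℤ) * ((i : ℤ) + 1) ^ n := by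
        rw [Finset.sum_range_succ', Finset.mul_sum]
        simp only [Nat.cast_zero, ne_eq, Nat.add_eq_zero_iff, one_ne_zero, and_false,
          not_false_eq_true, zero_pow, mul_zero, add_zero]
        refine Finset.sum_congr rfl fun i _ => ?_
        have hc : ((k : ℤ) + 1) * (k.choose i : ℤ) = ((k + 1).choose (i + 1) : ℤ) * ((i : ℤ) + 1) := by
          exact_mod_cast Nat.add_one_mul_choose_eq k i
        have hs : (-1 : ℤ) ^ (k + 1 + (i + 1)) = (-1) ^ (k + i) := by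
          rw [show k + 1 + (i + 1) = k + i + 2 by ring, pow_add]; norm_num
        rw [hs]
        push_cast
        calc (-1 : ℤ) ^ (k + i) * ((k + 1).choose (i + 1) : ℤ) * ((i : ℤ) + 1) ^ (n + 1)
            = (-1) ^ (k + i) * (((k + 1).choose (i + 1) : ℤ) * ((i : ℤ) + 1)) * ((i : ℤ) + 1) ^ n := by
              ring
          _ = _ := by rw [← hc]; ring
      have e2 : ∑ i ∈ range (k + 1 + 1), (-1) ^ (k + 1 + i) * ((k + 1).choose i : ℤ) * (i : ℤ) ^ n
          + ∑ i ∈ range (k + 1), (-1) ^ (k + i) * (k.choose i : ℤ) * (i : ℤ) ^ n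
          = ∑ i ∈ range (k + 1), (-1) ^ (k + i) * (k.choose i : ℤ) * ((i : ℤ) + 1) ^ n := by
        have a1 : ∑ i ∈ range (k + 1 + 1), (-1) ^ (k + 1 + i) * ((k + 1).choose i : ℤ) * (i : ℤ) ^ n
            = ∑ i ∈ range (k + 1), ((-1) ^ (k + i) * (k.choose i : ℤ) * ((i : ℤ) + 1) ^ n
                + (-1) ^ (k + i) * (k.choose (i + 1) : ℤ) * ((i : ℤ) + 1) ^ n)
              + (-1) ^ (k + 1) * (0 : ℤ) ^ n := by
          rw [Finset.sum_range_succ']
          have b1 : ∑ i ∈ range (k + 1), (-1) ^ (k + 1 + (i + 1)) * ((k + 1).choose (i + 1) : ℤ)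
                * ((i + 1 : ℕ) : ℤ) ^ n
              = ∑ i ∈ range (k + 1), ((-1) ^ (k + i) * (k.choose i : ℤ) * ((i : ℤ) + 1) ^ n
                + (-1) ^ (k + i) * (k.choose (i + 1) : ℤ) * ((i : ℤ) + 1) ^ n) := by
            refine Finset.sum_congr rfl fun i _ => ?_
            have hs : (-1 : ℤ) ^ (k + 1 + (i + 1)) = (-1) ^ (k + i) := by
              rw [show k + 1 + (i + 1) = k + i + 2 by ring, pow_add]; norm_num
            rw [hs, Nat.choose_succ_succ]
            push_cast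
            ring
          rw [b1]
          simp
        have a2 : ∑ i ∈ range (k + 1), (-1) ^ (k + i) * (k.choose i : ℤ) * (i : ℤ) ^ n
            = ∑ i ∈ range k, (-1) ^ (k + i + 1) * (k.choose (i + 1) : ℤ) * ((i : ℤ) + 1) ^ n
              + (-1) ^ k * (0 : ℤ) ^ n := by
          rw [Finset.sum_range_succ']
          have b1 : ∑ i ∈ range k, (-1) ^ (k + (i + 1)) * (k.choose (i + 1) : ℤ) * ((i + 1 : ℕ) : ℤ) ^ n
              = ∑ i ∈ range k, (-1) ^ (k + i + 1) * (k.choose (i + 1) : ℤ) * ((i : ℤ) + 1) ^ n := by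
            refine Finset.sum_congr rfl fun i _ => ?_
            rw [show k + (i + 1) = k + i + 1 by ring]
            push_cast
            ring
          rw [b1]
          simp
        have a3 : ∑ i ∈ range (k + 1), (-1) ^ (k + i) * (k.choose (i + 1) : ℤ) * ((i : ℤ) + 1) ^ n
            = ∑ i ∈ range k, (-1) ^ (k + i) * (k.choose (i + 1) : ℤ) * ((i : ℤ) + 1) ^ n := by
          rw [Finset.sum_range_succ, Nat.choose_succ_self]
          simp
        rw [a1, a2, Finset.sum_add_distrib, a3]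
        have a4 : ∑ i ∈ range k, (-1) ^ (k + i + 1) * (k.choose (i + 1) : ℤ) * ((i : ℤ) + 1) ^ n
            = - ∑ i ∈ range k, (-1) ^ (k + i) * (k.choose (i + 1) : ℤ) * ((i : ℤ) + 1) ^ n := by
          rw [← Finset.sum_neg_distrib]
          refine Finset.sum_congr rfl fun i _ => ?_
          rw [pow_succ]; ring
        rw [a4, pow_succ]
        ring
      have i1 := ih (k + 1)
      have i2 := ih k
      rw [e1, ← e2, ← i1, ← i2, Nat.stirlingSecond_succ_succ, Nat.factorial_succ]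
      push_cast
      ring

theorem sum_pairs (f : ℕ → ℤ) (n : ℕ) :
    ∑ i ∈ range (2 * n), f i = ∑ t ∈ range n, (f (2 * t) + f (2 * t + 1)) := by
  induction n with
  | zero => simp
  | succ n ih =>
    rw [show 2 * (n + 1) = 2 * n + 1 + 1 by ring, Finset.sum_range_succ, Finset.sum_range_succ, ih,
      Finset.sum_range_succ]
    ring

/-- The differences of the odd part with step `2^M`. -/
def D (K M i n : ℕ) : ℕ :=
  ∑ t ∈ range (K + 1), (2 * K + 1).choose (2 * t + 1) * (2 * t + 1) ^ n *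
    ((2 * t + 1) ^ (2 ^ M) - 1) ^ i

/-- The even part. -/
def E (K n : ℕ) : ℕ := ∑ t ∈ range (K + 1), (2 * K + 1).choose (2 * t) * (2 * t) ^ n

theorem split (K M n : ℕ) :
    (2 * K + 1).factorial * Nat.stirlingSecond n (2 * K + 1) + E K n = D K M 0 n := by
  have h := stir n (2 * K + 1)
  rw [show 2 * K + 1 + 1 = 2 * (K + 1) by ring, sum_pairs] at h
  have h2 : ((D K M 0 n : ℕ) : ℤ) - (E K n : ℤ) =
      ∑ t ∈ range (K + 1), ((-1) ^ (2 * K + 1 + 2 * t) * ((2 * K + 1).choose (2 * t) : ℤ)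
        * ((2 * t : ℕ) : ℤ) ^ n + (-1) ^ (2 * K + 1 + (2 * t + 1)) *
        ((2 * K + 1).choose (2 * t + 1) : ℤ) * ((2 * t + 1 : ℕ) : ℤ) ^ n) := by
    rw [D, E]
    push_cast
    rw [← Finset.sum_sub_distrib]
    refine Finset.sum_congr rfl fun t _ => ?_
    have s1 : (-1 : ℤ) ^ (2 * K + 1 + 2 * t) = -1 := by
      rw [show 2 * K + 1 + 2 * t = 2 * (K + t) + 1 by ring, pow_succ, pow_mul]; norm_num
    have s2 : (-1 : ℤ) ^ (2 * K + 1 + (2 * t + 1)) = 1 := by
      rw [show 2 * K + 1 + (2 * t + 1) = 2 * (K + t + 1) by ring, pow_mul]; norm_num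
    rw [s1, s2, pow_zero]
    ring
  rw [← h2] at h
  have h3 : (((2 * K + 1).factorial * Nat.stirlingSecond n (2 * K + 1) + E K n : ℕ) : ℤ)
      = ((D K M 0 n : ℕ) : ℤ) := by
    push_cast
    push_cast at h
    linarith
  exact_mod_cast h3

theorem E_dvd (K n : ℕ) : 2 ^ n ∣ E K n := by
  unfold E
  refine Finset.dvd_sum fun t _ => ?_
  rw [mul_pow]
  exact Dvd.dvd.mul_left (Dvd.intro _ rfl) _

theorem D_add (K M i n y : ℕ) :
    D K M i (n + 2 ^ M * y) = ∑ l ∈ range (y + 1), y.choose l * D K M (i + l) n := by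
  simp only [D, Finset.mul_sum]
  rw [Finset.sum_comm]
  refine Finset.sum_congr rfl fun t _ => ?_
  have h1 : 1 ≤ (2 * t + 1) ^ (2 ^ M) := Nat.one_le_pow _ _ (by omega)
  obtain ⟨w, hw⟩ : ∃ w, (2 * t + 1) ^ (2 ^ M) = w + 1 := ⟨_, (Nat.sub_add_cancel h1).symm⟩
  rw [pow_add, pow_mul, hw, Nat.add_sub_cancel, add_pow w 1 y, Finset.mul_sum, Finset.mul_sum,
    Finset.sum_mul]
  refine Finset.sum_congr rfl fun l _ => ?_
  rw [one_pow, pow_add]
  simp only [Nat.cast_id]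
  ring

theorem pow_form (t : ℕ) : ∀ M, 1 ≤ M → ∃ q, (2 * t + 1) ^ (2 ^ M) = 1 + 2 ^ (M + 2) * q := by
  intro M hM
  induction M, hM using Nat.le_induction with
  | base =>
    obtain ⟨q, hq⟩ := (Nat.even_mul_succ_self t).two_dvd
    refine ⟨q, ?_⟩
    have : (2 * t + 1) ^ (2 ^ 1) = 1 + 4 * (t * (t + 1)) := by ring
    rw [this, hq]; ring
  | succ M _ ih =>
    obtain ⟨q, hq⟩ := ih
    refine ⟨q + 2 ^ (M + 1) * q ^ 2, ?_⟩
    rw [pow_succ 2 M, pow_mul, hq]
    ring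

theorem D_naive (K M i n : ℕ) (hM : 1 ≤ M) : 2 ^ ((M + 2) * i) ∣ D K M i n := by
  unfold D
  refine Finset.dvd_sum fun t _ => ?_
  obtain ⟨q, hq⟩ := pow_form t M hM
  rw [hq, Nat.add_sub_cancel_left, mul_pow, ← pow_mul]
  exact Dvd.dvd.mul_left (Dvd.intro _ rfl) _

/-! ## The two kinds of classes -/

/-- A class on which the valuation of the odd part is constant. -/
def CC (K M r v : ℕ) : Prop :=
  2 ^ v ∣ D K M 0 r ∧ ¬ 2 ^ (v + 1) ∣ D K M 0 r ∧ ∀ i, 1 ≤ i → 2 ^ (v + 1) ∣ D K M i r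

/-- A class on which the odd part is `2^c` times a 2-adic isometry. -/
def IC (K M r c : ℕ) : Prop :=
  2 ^ c ∣ D K M 1 r ∧ ¬ 2 ^ (c + 1) ∣ D K M 1 r ∧ ∀ i, 2 ≤ i → 2 ^ (c + 1 + Nat.log 2 i) ∣ D K M i r

theorem CC.step {K M r v : ℕ} (h : CC K M r v) (y : ℕ) :
    2 ^ v ∣ D K M 0 (r + 2 ^ M * y) ∧ ¬ 2 ^ (v + 1) ∣ D K M 0 (r + 2 ^ M * y) := by
  obtain ⟨h0, h1, h2⟩ := h
  rw [D_add, Finset.sum_range_succ']
  have hs : 2 ^ (v + 1) ∣ ∑ l ∈ range y, y.choose (l + 1) * D K M (0 + (l + 1)) r :=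
    Finset.dvd_sum fun l _ => Dvd.dvd.mul_left (h2 _ (by omega)) _
  have hs' : 2 ^ v ∣ ∑ l ∈ range y, y.choose (l + 1) * D K M (0 + (l + 1)) r :=
    dvd_trans (pow_dvd_pow 2 (by omega)) hs
  simp only [Nat.choose_zero_right, one_mul, Nat.add_zero]
  exact ⟨dvd_add hs' h0, fun h => h1 ((Nat.dvd_add_right hs).1 h)⟩

theorem IC.step {K M r c : ℕ} (h : IC K M r c) (y : ℕ) : IC K M (r + 2 ^ M * y) c := by
  obtain ⟨h0, h1, h2⟩ := h
  have h3 : ∀ i, 2 ≤ i → 2 ^ (c + 1 + Nat.log 2 i) ∣ D K M i (r + 2 ^ M * y) := by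
    intro i hi
    rw [D_add]
    refine Finset.dvd_sum fun l _ => Dvd.dvd.mul_left ?_ _
    refine dvd_trans (pow_dvd_pow 2 ?_) (h2 (i + l) (by omega))
    have := Nat.log_mono_right (b := 2) (show i ≤ i + l by omega)
    omega
  refine ⟨?_, ?_, h3⟩
  all_goals
    rw [D_add, Finset.sum_range_succ']
    have hs : 2 ^ (c + 1) ∣ ∑ l ∈ range y, y.choose (l + 1) * D K M (1 + (l + 1)) r :=
      Finset.dvd_sum fun l _ => Dvd.dvd.mul_left
        (dvd_trans (pow_dvd_pow 2 (by omega)) (h2 (1 + (l + 1)) (by omega))) _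
    have hs' : 2 ^ c ∣ ∑ l ∈ range y, y.choose (l + 1) * D K M (1 + (l + 1)) r :=
      dvd_trans (pow_dvd_pow 2 (by omega)) hs
    simp only [Nat.choose_zero_right, one_mul, Nat.add_zero]
  · exact dvd_add hs' h0
  · exact fun h => h1 ((Nat.dvd_add_right hs).1 h)

theorem choose_dvd {h i e : ℕ} (hi : 1 ≤ i) (he : 2 ^ e ∣ h) :
    2 ^ e ∣ 2 ^ (Nat.log 2 i) * h.choose i := by
  obtain ⟨i', rfl⟩ : ∃ i', i = i' + 1 := ⟨i - 1, by omega⟩
  have h1 : 2 ^ e ∣ (i' + 1) * h.choose (i' + 1) := by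
    cases h with
    | zero => simp
    | succ h =>
      have := Nat.add_one_mul_choose_eq h i'
      rw [mul_comm, ← this]
      exact Dvd.dvd.mul_right he _
  obtain ⟨a, b, hb, hab⟩ := Nat.exists_eq_two_pow_mul_odd (n := i' + 1) (by omega)
  have ha : a ≤ Nat.log 2 (i' + 1) := by
    apply Nat.le_log_of_pow_le (by norm_num)
    rw [hab]
    exact Nat.le_mul_of_pos_right _ hb.pos
  rw [hab] at h1
  have h2 : 2 ^ e ∣ b * (2 ^ a * h.choose (2 ^ a * b)) := by
    rw [show b * (2 ^ a * h.choose (2 ^ a * b)) = 2 ^ a * b * h.choose (2 ^ a * b) by ring]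
    exact h1
  have hcop : Nat.Coprime (2 ^ e) b := Nat.Coprime.pow_left _ (Nat.coprime_two_left.2 hb)
  have h3 := hcop.dvd_of_dvd_mul_left h2
  rw [← hab] at h3
  exact dvd_trans h3 (mul_dvd_mul (pow_dvd_pow 2 ha) dvd_rfl)

theorem IC.diff {K M n c : ℕ} (hI : IC K M n c) {h e : ℕ} (hh : 1 ≤ h) (he : 2 ^ e ∣ h) :
    ∃ X, D K M 0 (n + 2 ^ M * h) = D K M 0 n + X ∧ 2 ^ (c + e) ∣ X ∧
      (2 ^ (c + e + 1) ∣ X → 2 ^ (e + 1) ∣ h) := by
  obtain ⟨h0, h1, h2⟩ := hI
  obtain ⟨h', rfl⟩ : ∃ h', h = h' + 1 := ⟨h - 1, by omega⟩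
  set h := h' + 1 with hdef
  have hX : 2 ^ (c + e + 1) ∣ ∑ l ∈ range h', h.choose (l + 1 + 1) * D K M (0 + (l + 1 + 1)) n := by
    refine Finset.dvd_sum fun l _ => ?_
    obtain ⟨q, hq⟩ := h2 (0 + (l + 1 + 1)) (by omega)
    obtain ⟨q', hq'⟩ := choose_dvd (i := l + 1 + 1) (by omega) he
    rw [hq]
    refine ⟨q' * q, ?_⟩
    simp only [Nat.zero_add]
    calc h.choose (l + 1 + 1) * (2 ^ (c + 1 + Nat.log 2 (l + 1 + 1)) * q)
        = 2 ^ (c + 1) * (2 ^ (Nat.log 2 (l + 1 + 1)) * h.choose (l + 1 + 1)) * q := by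
          rw [pow_add]; ring
      _ = _ := by rw [hq']; ring
  refine ⟨(∑ l ∈ range h', h.choose (l + 1 + 1) * D K M (0 + (l + 1 + 1)) n) + h * D K M 1 n,
    ?_, ?_, ?_⟩
  · rw [D_add, Finset.sum_range_succ', hdef, Finset.sum_range_succ']
    simp only [Nat.choose_zero_right, one_mul, Nat.add_zero, Nat.zero_add, Nat.choose_one_right]
    ring
  · refine dvd_add (dvd_trans (pow_dvd_pow 2 (by omega)) hX) ?_
    rw [add_comm c e, pow_add]
    exact mul_dvd_mul he h0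
  · intro hd
    have hd2 : 2 ^ (c + e + 1) ∣ h * D K M 1 n := (Nat.dvd_add_right hX).1 hd
    obtain ⟨a, ha⟩ := he
    obtain ⟨b, hb⟩ := h0
    have hbodd : ¬ 2 ∣ b := by
      rintro ⟨b', rfl⟩
      exact h1 ⟨b', by rw [hb]; ring⟩
    rw [ha, hb, show c + e + 1 = (c + e) + 1 by ring, pow_succ,
      show 2 ^ e * a * (2 ^ c * b) = 2 ^ (c + e) * (a * b) by rw [pow_add]; ring] at hd2
    have hd3 := Nat.dvd_of_mul_dvd_mul_left (by positivity) hd2
    have hd4 : 2 ∣ a := (Nat.Prime.dvd_mul Nat.prime_two).1 hd3 |>.resolve_right hbodd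
    obtain ⟨a', rfl⟩ := hd4
    exact ⟨a', by rw [ha]; ring⟩

/-! ## From the odd part to the valuation -/

theorem stirling_pos : ∀ j k : ℕ, 1 ≤ k → k ≤ j → 0 < Nat.stirlingSecond j k := by
  intro j
  induction j with
  | zero => intro k h1 h2; omega
  | succ n ih =>
    intro k h1 h2
    obtain ⟨k', rfl⟩ : ∃ k', k = k' + 1 := ⟨k - 1, by omega⟩
    rcases Nat.lt_or_ge n (k' + 1) with h | h
    · have : n = k' := by omega
      subst this
      rw [Nat.stirlingSecond_self]; norm_num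
    · rw [Nat.stirlingSecond_succ_succ]
      have := ih (k' + 1) (by omega) h
      positivity

theorem key (K M j a : ℕ) (hj : 2 * K + 1 ≤ j) (ha : a ≤ j) :
    2 ^ a ∣ D K M 0 j ↔ a ≤ padicValNat 2 (2 * K + 1).factorial + val (2 * K + 1) j := by
  have h1 := E_dvd K j
  have h2 : 2 ^ a ∣ E K j := dvd_trans (pow_dvd_pow 2 ha) h1
  have hS := stirling_pos j (2 * K + 1) (by omega) hj
  have hF := Nat.factorial_pos (2 * K + 1)
  rw [← split K M j, (Nat.dvd_add_iff_left h2).symm,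
    padicValNat_dvd_iff_le (Nat.mul_ne_zero hF.ne' hS.ne'), padicValNat.mul hF.ne' hS.ne', val]

theorem mem_cls {n m j : ℕ} : j ∈ cls n (2 ^ m) ↔ 2 ^ m ≤ j ∧ ∃ h, j = n + 2 ^ m * h := by
  constructor
  · rintro ⟨h1, h2⟩
    have h3 : n ≤ j := le_trans (le_max_left _ _) h1
    refine ⟨le_trans (le_max_right _ _) h1, ?_⟩
    obtain ⟨h, hh⟩ := (Nat.modEq_iff_dvd' h3).1 h2.symm
    exact ⟨h, by omega⟩
  · rintro ⟨h1, h, rfl⟩
    refine ⟨max_le (Nat.le_add_right _ _) h1, ?_⟩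
    simp [Nat.ModEq]

/-- If the odd part has exact valuation `u` on the class, then the class is constant. -/
theorem constOn_of {K M m n u : ℕ} (hn : 2 * K + 1 ≤ n) (hu : u + 1 ≤ 2 ^ m)
    (h : ∀ y, 2 ^ u ∣ D K M 0 (n + 2 ^ m * y) ∧ ¬ 2 ^ (u + 1) ∣ D K M 0 (n + 2 ^ m * y)) :
    ConstOn (val (2 * K + 1)) (cls n (2 ^ m)) := by
  have hall : ∀ j ∈ cls n (2 ^ m),
      val (2 * K + 1) j = u - padicValNat 2 (2 * K + 1).factorial := by
    intro j hj
    obtain ⟨h1, y, rfl⟩ := mem_cls.1 hj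
    obtain ⟨a1, a2⟩ := h y
    rw [key K M _ _ (by omega) (by omega)] at a1 a2
    omega
  refine ⟨u - padicValNat 2 (2 * K + 1).factorial, ?_⟩
  ext w
  constructor
  · rintro ⟨j, hj, rfl⟩
    exact hall j hj
  · intro hw
    have hmem : n + 2 ^ m * 1 ∈ cls n (2 ^ m) := mem_cls.2 ⟨by omega, 1, rfl⟩
    exact ⟨_, hmem, by rw [hall _ hmem]; exact hw.symm⟩

theorem exact_val {x c : ℕ} (h : ¬ 2 ^ c ∣ x) : ∃ u, u + 1 ≤ c ∧ 2 ^ u ∣ x ∧ ¬ 2 ^ (u + 1) ∣ x := by
  induction c with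
  | zero => simp at h
  | succ c ih =>
    by_cases hc : 2 ^ c ∣ x
    · exact ⟨c, le_rfl, hc, h⟩
    · obtain ⟨u, h1, h2, h3⟩ := ih hc
      exact ⟨u, by omega, h2, h3⟩

theorem add_exact {a x y : ℕ} (h1 : 2 ^ a ∣ x) (h2 : ¬ 2 ^ (a + 1) ∣ x) (h3 : 2 ^ a ∣ y)
    (h4 : ¬ 2 ^ (a + 1) ∣ y) : 2 ^ (a + 1) ∣ x + y := by
  obtain ⟨p, rfl⟩ := h1
  obtain ⟨q, rfl⟩ := h3
  have hp : ¬ 2 ∣ p := by
    rintro ⟨p', rfl⟩
    exact h2 ⟨p', by ring⟩
  have hq : ¬ 2 ∣ q := by
    rintro ⟨q', rfl⟩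
    exact h4 ⟨q', by ring⟩
  have : 2 ∣ p + q := by omega
  obtain ⟨r, hr⟩ := this
  exact ⟨r, by rw [← Nat.mul_add, hr]; ring⟩

/-- The change over a step `2^M 2^s` in an isometry class. -/
theorem IC.stepX {K M n c : ℕ} (hI : IC K M n c) (s : ℕ) :
    ∃ X, D K M 0 (n + 2 ^ (M + s)) = D K M 0 n + X ∧ 2 ^ (c + s) ∣ X ∧ ¬ 2 ^ (c + s + 1) ∣ X := by
  obtain ⟨X, h1, h2, h3⟩ := hI.diff (h := 2 ^ s) (e := s) Nat.one_le_two_pow dvd_rfl
  refine ⟨X, by rw [pow_add]; exact h1, h2, fun h => ?_⟩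
  have := h3 h
  have h4 := Nat.le_of_dvd (by positivity) this
  rw [pow_succ] at h4
  have : 0 < 2 ^ s := by positivity
  omega

theorem IC.same {K M n c : ℕ} (hI : IC K M n c) (s y : ℕ) :
    ∃ X, D K M 0 (n + 2 ^ (M + s) * y) = D K M 0 n + X ∧ 2 ^ (c + s) ∣ X := by
  rcases Nat.eq_zero_or_pos y with rfl | hy
  · exact ⟨0, by simp, dvd_zero _⟩
  · obtain ⟨X, h1, h2, -⟩ := hI.diff (h := 2 ^ s * y) (e := s)
      (Nat.mul_pos (by positivity) hy) (Dvd.intro _ rfl)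
    exact ⟨X, by rw [pow_add, mul_assoc]; exact h1, h2⟩

theorem IC.const {K M n c s : ℕ} (hI : IC K M n c) (hn : 2 * K + 1 ≤ n)
    (hcs : c + s ≤ 2 ^ (M + s)) (hz : ¬ 2 ^ (c + s) ∣ D K M 0 n) :
    ConstOn (val (2 * K + 1)) (cls n (2 ^ (M + s))) := by
  obtain ⟨u, hu1, hu2, hu3⟩ := exact_val hz
  refine constOn_of (M := M) hn (le_trans hu1 hcs) fun y => ?_
  obtain ⟨X, hX, hX2⟩ := hI.same s y
  rw [hX]
  refine ⟨dvd_add hu2 (dvd_trans (pow_dvd_pow 2 (by omega)) hX2), fun h => hu3 ?_⟩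
  exact (Nat.dvd_add_left (dvd_trans (pow_dvd_pow 2 (by omega)) hX2)).1 h

theorem IC.nonconst {K M n c s : ℕ} (hI : IC K M n c) (hn : 2 * K + 1 ≤ n)
    (hcs : c + s + 1 ≤ 2 ^ (M + s)) (hz : 2 ^ (c + s) ∣ D K M 0 n) :
    ¬ ConstOn (val (2 * K + 1)) (cls n (2 ^ (M + s))) := by
  rintro ⟨w, hw⟩
  have hI2 : IC K M (n + 2 ^ (M + s)) c := by
    rw [pow_add]; exact hI.step (2 ^ s)
  obtain ⟨X, a1, a2, a3⟩ := hI.stepX s
  obtain ⟨Y, b1, b2, b3⟩ := hI2.stepX s
  have m1 : n + 2 ^ (M + s) ∈ cls n (2 ^ (M + s)) := mem_cls.2 ⟨by omega, 1, by ring⟩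
  have m2 : n + 2 ^ (M + s) + 2 ^ (M + s) ∈ cls n (2 ^ (M + s)) := mem_cls.2 ⟨by omega, 2, by ring⟩
  have v1 : val (2 * K + 1) (n + 2 ^ (M + s)) = w := by
    have : val (2 * K + 1) (n + 2 ^ (M + s)) ∈ val (2 * K + 1) '' cls n (2 ^ (M + s)) := ⟨_, m1, rfl⟩
    rw [hw] at this; exact this
  have v2 : val (2 * K + 1) (n + 2 ^ (M + s) + 2 ^ (M + s)) = w := by
    have : val (2 * K + 1) (n + 2 ^ (M + s) + 2 ^ (M + s)) ∈
      val (2 * K + 1) '' cls n (2 ^ (M + s)) := ⟨_, m2, rfl⟩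
    rw [hw] at this; exact this
  have k1 := key K M (n + 2 ^ (M + s)) (c + s + 1) (by omega) (by omega)
  have k2 := key K M (n + 2 ^ (M + s) + 2 ^ (M + s)) (c + s + 1) (by omega) (by omega)
  rw [v1] at k1
  rw [v2, ← k1, b1] at k2
  have hd1 : 2 ^ (c + s) ∣ D K M 0 (n + 2 ^ (M + s)) := by
    rw [a1]; exact dvd_add hz a2
  by_cases hd : 2 ^ (c + s + 1) ∣ D K M 0 (n + 2 ^ (M + s))
  · exact b3 ((Nat.dvd_add_right hd).1 (k2.2 hd))
  · exact hd (k2.1 (add_exact hd1 hd b2 b3))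

/-- The certificate: every class modulo `2^M` is constant or isometric with a zero. -/
structure Cert (K M : ℕ) (Z : Finset ℕ) : Prop where
  lt : ∀ r ∈ Z, r < 2 ^ M
  iso : ∀ r ∈ Z, ∃ c, IC K M r c ∧ 2 ^ c ∣ D K M 0 r ∧ c + 1 ≤ 2 ^ M
  con : ∀ r < 2 ^ M, r ∉ Z → ∃ v, CC K M r v ∧ v + 1 ≤ 2 ^ M

theorem exists_zero {K M r c : ℕ} (hI : IC K M r c) (hz : 2 ^ c ∣ D K M 0 r) (s : ℕ) :
    ∃ y, y < 2 ^ s ∧ 2 ^ (c + s) ∣ D K M 0 (r + 2 ^ M * y) := by
  induction s with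
  | zero => exact ⟨0, by norm_num, by simpa using hz⟩
  | succ s ih =>
    obtain ⟨y, hy, hd⟩ := ih
    by_cases h : 2 ^ (c + (s + 1)) ∣ D K M 0 (r + 2 ^ M * y)
    · exact ⟨y, lt_of_lt_of_le hy (Nat.pow_le_pow_right (by norm_num) (by omega)), h⟩
    · refine ⟨y + 2 ^ s, by rw [pow_succ]; omega, ?_⟩
      obtain ⟨X, h1, h2, h3⟩ := (hI.step y).stepX s
      have e : r + 2 ^ M * (y + 2 ^ s) = r + 2 ^ M * y + 2 ^ (M + s) := by rw [pow_add]; ring
      rw [e, h1]
      exact add_exact hd h h2 h3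

theorem exists_rep (k T ρ : ℕ) (hρ : ρ < T) : ∃ h, k ≤ ρ + T * h ∧ ρ + T * h < k + T := by
  refine ⟨(k + T - 1 - ρ) / T, ?_⟩
  have h1 := Nat.div_add_mod (k + T - 1 - ρ) T
  have h2 := Nat.mod_lt (k + T - 1 - ρ) (show T > 0 by omega)
  omega

theorem hasMu {K M : ℕ} {Z : Finset ℕ} (h : Cert K M Z) : HasMu (2 * K + 1) Z.card := by
  refine ⟨M, fun m hm => ?_⟩
  obtain ⟨s, rfl⟩ : ∃ s, m = M + s := ⟨m - M, by omega⟩
  have hMs : 2 ^ M + s ≤ 2 ^ (M + s) := by
    rw [pow_add]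
    have h1 : s + 1 ≤ 2 ^ s := Nat.lt_two_pow_self
    have h2 : 1 ≤ 2 ^ M := Nat.one_le_two_pow
    nlinarith
  -- elements of the set
  have hmem : ∀ n ∈ N (2 * K + 1) (M + s), n % 2 ^ M ∈ Z ∧
      ∃ c, IC K M n c ∧ 2 ^ (c + s) ∣ D K M 0 n := by
    rintro n ⟨hn1, hn2, hn3⟩
    have hr : n % 2 ^ M < 2 ^ M := Nat.mod_lt _ (by positivity)
    have hdm : n % 2 ^ M + 2 ^ M * (n / 2 ^ M) = n := Nat.mod_add_div _ _
    have hZ : n % 2 ^ M ∈ Z := by
      by_contra hZ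
      obtain ⟨v, hv, hv2⟩ := h.con _ hr hZ
      apply hn3
      refine constOn_of (M := M) (u := v) hn1 (by omega) fun y => ?_
      have e : n + 2 ^ (M + s) * y = n % 2 ^ M + 2 ^ M * (n / 2 ^ M + 2 ^ s * y) := by
        rw [Nat.mul_add, ← Nat.add_assoc, hdm, pow_add]; ring
      rw [e]
      exact hv.step _
    refine ⟨hZ, ?_⟩
    obtain ⟨c, hc, -, hc2⟩ := h.iso _ hZ
    have hI : IC K M n c := by
      have := hc.step (n / 2 ^ M)
      rwa [hdm] at this
    refine ⟨c, hI, ?_⟩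
    by_contra hz
    exact hn3 (hI.const hn1 (by omega) hz)
  have himg : (fun n => n % 2 ^ M) '' N (2 * K + 1) (M + s) = ↑Z := by
    ext r
    constructor
    · rintro ⟨n, hn, rfl⟩
      exact (hmem n hn).1
    · intro hr
      have hr' : r ∈ Z := hr
      obtain ⟨c, hI, hz, hc2⟩ := h.iso r hr'
      have hrlt := h.lt r hr'
      obtain ⟨y, hy, hd⟩ := exists_zero hI hz s
      have hlt : r + 2 ^ M * y < 2 ^ (M + s) := by
        rw [pow_add]
        have : 2 ^ M * (y + 1) ≤ 2 ^ M * 2 ^ s := Nat.mul_le_mul_left _ hy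
        rw [Nat.mul_add] at this
        omega
      obtain ⟨w, hw1, hw2⟩ := exists_rep (2 * K + 1) (2 ^ (M + s)) _ hlt
      have hI2 := hI.step y
      obtain ⟨X, hX1, hX2⟩ := hI2.same s w
      have hI3 : IC K M (r + 2 ^ M * y + 2 ^ (M + s) * w) c := by
        have := hI2.step (2 ^ s * w)
        rwa [← mul_assoc, ← pow_add] at this
      have hd3 : 2 ^ (c + s) ∣ D K M 0 (r + 2 ^ M * y + 2 ^ (M + s) * w) := by
        rw [hX1]; exact dvd_add hd hX2
      refine ⟨r + 2 ^ M * y + 2 ^ (M + s) * w, ⟨hw1, hw2, hI3.nonconst hw1 (by omega) hd3⟩, ?_⟩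
      show (r + 2 ^ M * y + 2 ^ (M + s) * w) % 2 ^ M = r
      have e : r + 2 ^ M * y + 2 ^ (M + s) * w = r + 2 ^ M * (y + 2 ^ s * w) := by
        rw [pow_add]; ring
      rw [e, Nat.add_mul_mod_self_left, Nat.mod_eq_of_lt hrlt]
  have hlt_case : ∀ n ∈ N (2 * K + 1) (M + s), ∀ n' ∈ N (2 * K + 1) (M + s),
      n % 2 ^ M = n' % 2 ^ M → n < n' → False := by
    intro n hn n' hn' he hlt
    obtain ⟨-, c, hI, hd⟩ := hmem n hn
    obtain ⟨-, c', hI', hd'⟩ := hmem n' hn'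
    obtain ⟨w, hw⟩ := (Nat.modEq_iff_dvd' hlt.le).1 (show n ≡ n' [MOD 2 ^ M] from he)
    have hn'eq : n' = n + 2 ^ M * w := by omega
    have hw1 : 1 ≤ w := by
      rcases Nat.eq_zero_or_pos w with rfl | h'
      · simp at hn'eq; omega
      · exact h'
    have hcc : c = c' := by
      have hIc : IC K M n' c := by rw [hn'eq]; exact hI.step w
      obtain ⟨p1, p2, -⟩ := hIc
      obtain ⟨q1, q2, -⟩ := hI'
      rcases lt_trichotomy c c' with hlt | heq | hlt
      · exact absurd (dvd_trans (pow_dvd_pow 2 (by omega)) q1) p2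
      · exact heq
      · exact absurd (dvd_trans (pow_dvd_pow 2 (by omega)) p1) q2
    subst hcc
    have hws : w < 2 ^ s := by
      have h1 := hn'.2.1
      have h2 := hn.1
      have h3 : 2 ^ M * w < 2 ^ M * 2 ^ s := by rw [← pow_add]; omega
      exact Nat.lt_of_mul_lt_mul_left h3
    have hnd : ¬ 2 ^ s ∣ w := fun hdv => absurd (Nat.le_of_dvd hw1 hdv) (by omega)
    obtain ⟨e, he1, he2, he3⟩ := exact_val hnd
    obtain ⟨X, x1, x2, x3⟩ := hI.diff hw1 he2
    apply he3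
    apply x3
    rw [hn'eq, x1] at hd'
    exact dvd_trans (pow_dvd_pow 2 (by omega)) ((Nat.dvd_add_right hd).1 hd')
  have hinj : Set.InjOn (fun n => n % 2 ^ M) (N (2 * K + 1) (M + s)) := by
    intro n hn n' hn' he
    rcases lt_trichotomy n n' with hl | hl | hl
    · exact (hlt_case n hn n' hn' he hl).elim
    · exact hl
    · exact (hlt_case n' hn' n hn he.symm hl).elim
  rw [← Set.InjOn.ncard_image hinj, himg, Set.ncard_coe_finset]

/-! ## The computation -/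

/-- `∑ c_t (p^n mod 2^80) ((p^T - 1) mod 2^80)^i`, with `p` running over the odd numbers from `p` on. -/
def sl (T i n : ℕ) : List ℕ → ℕ → ℕ
  | [], _ => 0
  | c :: l, p => c * (p ^ n % 2 ^ 80) * ((p ^ T - 1) % 2 ^ 80) ^ i + sl T i n l (p + 2)

theorem sl_eq (T i n : ℕ) : ∀ (l : List ℕ) (a : ℕ), sl T i n l (2 * a + 1) =
    ∑ t ∈ range l.length, l.getD t 0 * ((2 * (a + t) + 1) ^ n % 2 ^ 80) *
      (((2 * (a + t) + 1) ^ T - 1) % 2 ^ 80) ^ i := by
  intro l
  induction l with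
  | nil => intro a; simp [sl]
  | cons c l ih =>
    intro a
    rw [sl, show 2 * a + 1 + 2 = 2 * (a + 1) + 1 by ring, ih (a + 1), List.length_cons,
      Finset.sum_range_succ', add_comm]
    congr 1
    refine Finset.sum_congr rfl fun t _ => ?_
    rw [List.getD_cons_succ, show a + 1 + t = a + (t + 1) by ring]

theorem D_mod {K M i n : ℕ} {L : List ℕ} (hl : L.length = K + 1)
    (hL : ∀ t < K + 1, L.getD t 0 = (2 * K + 1).choose (2 * t + 1)) :
    D K M i n ≡ sl (2 ^ M) i n L 1 [MOD 2 ^ 80] := by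
  have h := sl_eq (2 ^ M) i n L 0
  rw [Nat.mul_zero, Nat.zero_add, hl] at h
  rw [h, D, Nat.ModEq, Finset.sum_nat_mod,
    Finset.sum_nat_mod (range (K + 1)) (2 ^ 80) (fun t => L.getD t 0 * _ * _)]
  congr 1
  refine Finset.sum_congr rfl fun t ht => ?_
  rw [hL t (Finset.mem_range.1 ht), Nat.zero_add]
  exact ((Nat.ModEq.refl _).mul (Nat.mod_modEq _ _).symm).mul ((Nat.mod_modEq _ _).symm.pow _)

/-- One entry of the certificate: `e < 1000` stands for a constant class of valuation `e`, and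
`1000 + c` for an isometry class with scaling `2^c` and a zero. -/
def ok (L : List ℕ) (T I0 r e : ℕ) : Bool :=
  if e < 1000 then
    sl T 0 r L 1 % 2 ^ (e + 1) == 2 ^ e && decide (e + 1 ≤ 80) &&
      (List.range I0).all fun i => i == 0 || sl T i r L 1 % 2 ^ (e + 1) == 0
  else
    sl T 1 r L 1 % 2 ^ (e - 1000 + 1) == 2 ^ (e - 1000) && decide (e - 1000 + 1 ≤ 77) &&
      sl T 0 r L 1 % 2 ^ (e - 1000) == 0 &&
      (List.range I0).all fun i => i == 0 || i == 1 ||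
        sl T i r L 1 % 2 ^ (e - 1000 + 1 + Nat.log 2 i) == 0

/-- All entries of the certificate, starting with the residue `r`. -/
def chk (L : List ℕ) (T I0 : ℕ) : List ℕ → ℕ → Bool
  | [], _ => true
  | e :: l, r => ok L T I0 r e && chk L T I0 l (r + 1)

theorem chk_spec {L : List ℕ} {T I0 : ℕ} : ∀ (l : List ℕ) (r : ℕ), chk L T I0 l r = true →
    ∀ i < l.length, ok L T I0 (r + i) (l.getD i 0) = true := by
  intro l
  induction l with
  | nil => intro r _ i hi; simp at hi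
  | cons e l ih =>
    intro r h i hi
    rw [chk, Bool.and_eq_true] at h
    cases i with
    | zero => simpa using h.1
    | succ i =>
      have := ih (r + 1) h.2 i (by simpa using hi)
      rw [List.getD_cons_succ, show r + (i + 1) = r + 1 + i by ring]
      exact this

def L69 : List ℕ :=
  [69, 52394, 11238513, 1078897248, 56672074888, 1823810410032, 38650751381832,
   566877686933536, 5964720367660956, 46252743903616536, 269807672771096460,
   1202936975833188960, 4150132566624501912, 11185257572725865552, 23720460024918645912,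
   39789158751476438304, 52976853413424121454, 56093138908331422716, 47249626017378270486,
   31627280033224861216, 16777886359088798328, 7023301266595310928, 2305629203680278840,
   588671286046028640, 115631859759041340, 17231414395464984, 1913212193400684,
   154603005527328, 8815083648488, 340032449328, 8361453672, 119877472, 864501, 2346, 1]

def L71 : List ℕ :=
  [71, 57155, 13019909, 1329890705, 74473879480, 2560547383576, 58104729088840,
   914734449370024, 10358022441395860, 86680293062207460, 547324136192795676,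
   2650087220696342700, 9964327949818248552, 29381992672540989320, 68461490315822108120,
   126764178842844806648, 187265264199657100730, 221256270138418389602, 209296471752557936110,
   158455223553556008310, 95846086442150951368, 46171702771135840360, 17629195603524593592,
   5300174441392685400, 1243918491347262900, 225368761961739396, 31074067324187580,
   3201570572795084, 240719591939480, 12802736917880, 461738052776, 10639125640, 143218999,
   971635, 2485, 1]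

def C69 : List ℕ :=
  [68, 67, 67, 68, 69, 66, 66, 68, 67, 66, 66, 67, 69, 66, 66, 69, 67, 66, 66, 67, 68, 66, 66,
   68, 67, 66, 66, 67, 70, 66, 66, 70, 67, 66, 66, 67, 68, 1068, 1068, 1070, 1069, 1068, 1068,
   1069, 1071, 1068, 1068, 1071, 1069, 1068, 1068, 1069, 1070, 1068, 1068, 1070, 1069, 1068,
   1068, 1069, 1073, 1068, 1068, 1073, 1069, 1068, 1068, 1069, 1070, 66, 66, 68, 67, 66, 66,
   67, 69, 66, 66, 69, 67, 66, 66, 67, 68, 66, 66, 68, 67, 66, 66, 67, 70, 66, 66, 70, 67, 66,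
   66, 67, 68, 67, 67, 69, 68, 67, 67, 68, 70, 67, 67, 70, 68, 67, 67, 68, 69, 67, 67, 69, 68,
   67, 67, 68, 1073, 67, 67, 1073]

def C71 : List ℕ :=
  [70, 69, 71, 68, 70, 70, 72, 67, 69, 68, 70, 67, 69, 71, 73, 67, 69, 68, 70, 67, 69, 69, 71,
   67, 69, 68, 70, 67, 69, 70, 72, 67, 69, 68, 70, 67, 69, 69, 71, 1070, 1072, 1071, 1073,
   1070, 1072, 1076, 79, 1070, 1072, 1071, 1073, 1070, 1072, 1072, 1074, 1070, 1072, 1071,
   1073, 1070, 1072, 1073, 1075, 1070, 1072, 1071, 1073, 1070, 1072, 1072, 1074, 67, 69, 68,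
   70, 67, 69, 71, 73, 67, 69, 68, 70, 67, 69, 69, 71, 67, 69, 68, 70, 67, 69, 70, 72, 67, 69,
   68, 70, 67, 69, 69, 71, 68, 70, 69, 71, 68, 70, 73, 75, 68, 70, 69, 71, 68, 70, 70, 72, 68,
   70, 69, 71, 68, 70, 71, 73, 68, 70, 69, 71, 68, 70, 70, 72, 67, 69, 68, 70, 67, 69, 71, 73,
   67, 69, 68, 70, 67, 69, 69, 71, 67, 69, 68, 70, 67, 69, 70, 72, 67, 69, 68, 70, 67, 69, 69,
   71, 69, 71, 70, 72, 69, 71, 1076, 77, 69, 71, 70, 72, 69, 71, 71, 73, 69, 71, 70, 72, 69,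
   71, 72, 74, 69, 71, 70, 72, 69, 71, 71, 73, 67, 69, 68, 70, 67, 69, 71, 73, 67, 69, 68, 70,
   67, 69, 69, 71, 67, 69, 68, 70, 67, 69, 70, 72, 67, 69, 68, 70, 67, 69, 69, 71, 68, 70, 69,
   71, 68, 70, 73, 75, 68, 70, 69, 71, 68, 70, 70, 72, 68, 70, 69, 71, 68, 70, 71, 73, 68]

theorem chk69 : chk L69 128 9 C69 0 = true := by decide +kernel

theorem chk71 : chk L71 256 8 C71 0 = true := by decide +kernel

theorem exact_of_mod {S v : ℕ} (h : S % 2 ^ (v + 1) = 2 ^ v) : 2 ^ v ∣ S ∧ ¬ 2 ^ (v + 1) ∣ S := by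
  constructor
  · have h1 := Nat.mod_add_div S (2 ^ (v + 1))
    rw [h] at h1
    rw [← h1]
    exact dvd_add dvd_rfl (Dvd.dvd.mul_right (pow_dvd_pow 2 (by omega)) _)
  · intro hd
    rw [Nat.mod_eq_zero_of_dvd hd] at h
    have : 0 < 2 ^ v := by positivity
    omega

theorem log_le_sub {i : ℕ} (hi : 8 ≤ i) : Nat.log 2 i ≤ i - 5 := by
  have h : i < 2 ^ (i - 4) := by
    obtain ⟨j, rfl⟩ : ∃ j, i = j + 8 := ⟨i - 8, by omega⟩
    rw [show j + 8 - 4 = j + 4 by omega]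
    induction j with
    | zero => norm_num
    | succ j ih =>
      have := ih (by omega)
      rw [show j + 1 + 4 = j + 4 + 1 by ring, pow_succ]
      omega
  have := Nat.log_lt_of_lt_pow (by omega) h
  omega

theorem cert_of {K M I0 : ℕ} {L C : List ℕ} (hl : L.length = K + 1)
    (hL : ∀ t < K + 1, L.getD t 0 = (2 * K + 1).choose (2 * t + 1)) (hC : C.length = 2 ^ M)
    (hchk : chk L (2 ^ M) I0 C 0 = true) (hM : 7 ≤ M) (hI0 : 8 ≤ I0) (hI1 : I0 < 16)
    (hn : ∀ i, I0 ≤ i → 72 + i ≤ (M + 2) * i) (hn2 : ∀ i, I0 ≤ i → 80 ≤ (M + 2) * i) :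
    Cert K M ((range (2 ^ M)).filter (fun r => 1000 ≤ C.getD r 0)) := by
  have h128 : 128 ≤ 2 ^ M := le_trans (by norm_num) (Nat.pow_le_pow_right (by norm_num) hM)
  have hok : ∀ r < 2 ^ M, ok L (2 ^ M) I0 r (C.getD r 0) = true := by
    intro r hr
    have := chk_spec C 0 hchk r (by rw [hC]; exact hr)
    rwa [Nat.zero_add] at this
  have tr : ∀ {a i r : ℕ}, a ≤ 80 → (2 ^ a ∣ D K M i r ↔ 2 ^ a ∣ sl (2 ^ M) i r L 1) := by
    intro a i r ha
    exact (D_mod hl hL).dvd_iff (pow_dvd_pow 2 ha)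
  refine ⟨fun r hr => Finset.mem_range.1 (Finset.mem_filter.1 hr).1, fun r hr => ?_,
    fun r hr hZ => ?_⟩
  · obtain ⟨hr1, hr2⟩ := Finset.mem_filter.1 hr
    rw [Finset.mem_range] at hr1
    have h := hok r hr1
    rw [ok, if_neg (by omega)] at h
    simp only [Bool.and_eq_true, beq_iff_eq, decide_eq_true_eq, List.all_eq_true, List.mem_range,
      Bool.or_eq_true] at h
    obtain ⟨⟨⟨h1, h2⟩, h3⟩, h4⟩ := h
    set c := C.getD r 0 - 1000 with hc
    obtain ⟨e1, e2⟩ := exact_of_mod h1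
    refine ⟨c, ⟨(tr (by omega)).2 e1, fun hd => e2 ((tr (by omega)).1 hd), fun i hi => ?_⟩,
      (tr (by omega)).2 (Nat.dvd_of_mod_eq_zero h3), by omega⟩
    rcases Nat.lt_or_ge i I0 with hi2 | hi2
    · have hlog : Nat.log 2 i ≤ 3 := by
        have := Nat.log_lt_of_lt_pow (b := 2) (x := 4) (y := i) (by omega) (by omega)
        omega
      rcases h4 i hi2 with (h5 | h5) | h5
      · omega
      · omega
      · exact (tr (by omega)).2 (Nat.dvd_of_mod_eq_zero h5)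
    · have hlog := log_le_sub (le_trans hI0 hi2)
      have := hn i hi2
      exact dvd_trans (pow_dvd_pow 2 (by omega)) (D_naive K M i r (by omega))
  · have hlt : C.getD r 0 < 1000 := by
      by_contra hge
      exact hZ (Finset.mem_filter.2 ⟨Finset.mem_range.2 hr, by omega⟩)
    have h := hok r hr
    rw [ok, if_pos hlt] at h
    simp only [Bool.and_eq_true, beq_iff_eq, decide_eq_true_eq, List.all_eq_true, List.mem_range,
      Bool.or_eq_true] at h
    obtain ⟨⟨h1, h2⟩, h4⟩ := h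
    obtain ⟨e1, e2⟩ := exact_of_mod h1
    refine ⟨C.getD r 0, ⟨(tr (by omega)).2 e1, fun hd => e2 ((tr (by omega)).1 hd), fun i hi => ?_⟩,
      by omega⟩
    rcases Nat.lt_or_ge i I0 with hi2 | hi2
    · rcases h4 i hi2 with h5 | h5
      · omega
      · exact (tr (by omega)).2 (Nat.dvd_of_mod_eq_zero h5)
    · have := hn2 i hi2
      exact dvd_trans (pow_dvd_pow 2 (by omega)) (D_naive K M i r (by omega))

theorem hL69 : ∀ t < 34 + 1, L69.getD t 0 = (2 * 34 + 1).choose (2 * t + 1) := by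
  simp only [Nat.choose_eq_descFactorial_div_factorial]
  decide +kernel

theorem hL71 : ∀ t < 35 + 1, L71.getD t 0 = (2 * 35 + 1).choose (2 * t + 1) := by
  simp only [Nat.choose_eq_descFactorial_div_factorial]
  decide +kernel

theorem mu69 : HasMu 69 34 := by
  have h := hasMu (cert_of (K := 34) (M := 7) (I0 := 9) (L := L69) (C := C69) (by decide +kernel)
    hL69 (by decide +kernel) chk69 (by norm_num) (by norm_num) (by norm_num)
    (fun i hi => by omega) (fun i hi => by omega))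
  have hc : ((range (2 ^ 7)).filter (fun r => 1000 ≤ C69.getD r 0)).card = 34 := by decide +kernel
  rw [hc] at h
  exact h

theorem mu71 : HasMu 71 32 := by
  have h := hasMu (cert_of (K := 35) (M := 8) (I0 := 8) (L := L71) (C := C71) (by decide +kernel)
    hL71 (by decide +kernel) chk71 (by norm_num) (by norm_num) (by norm_num)
    (fun i hi => by omega) (fun i hi => by omega))
  have hc : ((range (2 ^ 8)).filter (fun r => 1000 ≤ C71.getD r 0)).card = 32 := by decide +kernel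
  rw [hc] at h
  exact h

/-- `μ_69 = 34` and `μ_71 = 32` both exist, so `μ` is not non-decreasing. -/
theorem result : HasMu 69 34 ∧ HasMu 71 32 ∧
    ¬ (∀ k k' μ μ' : ℕ, 1 ≤ k → k < k' → HasMu k μ → HasMu k' μ' → μ ≤ μ') := by
  refine ⟨mu69, mu71, fun h => ?_⟩
  have := h 69 71 34 32 (by norm_num) (by norm_num) mu69 mu71
  omega

end Pool.Agent.Results.MP_6194d2_nt.NotMonotone
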